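import Mathlib
import Pool.Agent.H35.ISO.Defs
import Pool.Agent.H35.ISO.Shf

set_option autoImplicit false

/-!
# R0: the contribution of `Z = ` all planes (no real dimension in the link)

`T N = ∑_{|n| = N} mm n |F n|²` over all modes.  With the raising operator
`(Rs G) n = ∑_k 4 n_(k,+) n_(k,-) G (n - (1,1)_k)` and the lowering operator `(Lw G) n = ∑_k G (n + (1,1)_k)`:
`(|n|+2)(|n|+1) ∑ mm G Lw H = ∑ mm (Rs G) H` (`adj`), `Lw Rs G = 4 (|n| + B) G + Rs Lw G` (`comm`).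
`G_0 = F` on the modes of degree `2`, `G_(s+1) = Rs G_s`, so `Lw G_(s+1) = 4 (s+1)(s+2+B) G_s`; Cauchy:
`kap s T 2 ≤ T (2s+2)`, `kap (s+1) = kap s (2s+4)(2s+3)/(4 (s+1)(s+2+B))`.
Then summation by parts and a telescoping sum.
-/

open Pool.Agent.H89.CZ Pool.Agent.H35.ISO

noncomputable section

namespace Pool.Agent.H85.SHP

variable {B : ℕ}

/-- `∑ mm F²` over the modes of degree `N`. -/
def Tq (F : Md B → ℝ) (N : ℕ) : ℝ := ∑ n ∈ lev B N, mm n * F n ^ 2

/-- Both exponents of the block `k` decreased by one. -/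
def dnn (n : Md B) (k : Fin B) : Md B := fun μ => n μ - if μ.1 = k then 1 else 0

/-- `4 n_+ n_-`. -/
def w4 (n : Md B) (k : Fin B) : ℝ := 4 * ((n (k, true) : ℝ) * n (k, false))

/-- Raising. -/
def Rs (G : Md B → ℝ) (n : Md B) : ℝ := ∑ k, w4 n k * G (dnn n k)

/-- Lowering. -/
def Lw (G : Md B → ℝ) (n : Md B) : ℝ := ∑ k, G (up n k)

theorem mem_lev' {N : ℕ} {n : Md B} : n ∈ lev B N ↔ ∑ μ, n μ = N := by
  simp [lev, Finset.mem_piAntidiag]

theorem w4_eq (n : Md B) (k : Fin B) : (nk n k : ℝ) ^ 2 - ek n k ^ 2 = w4 n k := by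
  unfold nk ek w4
  push_cast
  ring

theorem dnn_up (n : Md B) (k : Fin B) : dnn (up n k) k = n := by
  funext μ
  simp [dnn, up]

theorem up_dnn {n : Md B} {k : Fin B} (h : w4 n k ≠ 0) : up (dnn n k) k = n := by
  have h1 : n (k, true) ≠ 0 := by
    intro h1
    apply h
    simp [w4, h1]
  have h2 : n (k, false) ≠ 0 := by
    intro h2
    apply h
    simp [w4, h2]
  funext μ
  obtain ⟨l, b⟩ := μ
  by_cases hl : l = k
  · subst hl
    cases b
    · simp only [dnn, up, if_true]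
      omega
    · simp only [dnn, up, if_true]
      omega
  · simp [dnn, up, hl]

theorem dnn_up_ne (n : Md B) {k l : Fin B} (h : l ≠ k) :
    dnn (up n k) l = up (dnn n l) k := by
  funext μ
  unfold dnn up
  by_cases h1 : μ.1 = l
  · have h2 : ¬ μ.1 = k := fun h2 => h (h1.symm.trans h2)
    simp [h1, h]
  · by_cases h2 : μ.1 = k
    · have h3 : ¬ k = l := fun h3 => h h3.symm
      simp [h2, h3]
    · simp [h1, h2]

theorem w4_up_self (n : Md B) (k : Fin B) :
    w4 (up n k) k = w4 n k + 4 * ((n (k, true) : ℝ) + n (k, false) + 1) := by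
  unfold w4 up
  simp
  ring

theorem w4_up_ne (n : Md B) {k l : Fin B} (h : l ≠ k) : w4 (up n k) l = w4 n l := by
  unfold w4 up
  simp [h]

theorem sum_up_val' (n : Md B) (k : Fin B) : ∑ μ, up n k μ = ∑ μ, n μ + 2 := by
  unfold up
  rw [Finset.sum_add_distrib]
  congr 1
  rw [Fintype.sum_prod_type, Finset.sum_eq_single k]
  · simp
  · intro l _ hl
    simp [hl]
  · intro h
    exact absurd (Finset.mem_univ _) h

theorem dnn_mem {N : ℕ} {n : Md B} (hn : n ∈ lev B (N + 2)) {k : Fin B} (h : w4 n k ≠ 0) :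
    dnn n k ∈ lev B N := by
  rw [mem_lev'] at hn ⊢
  have h1 := sum_up_val' (dnn n k) k
  rw [up_dnn h, hn] at h1
  omega

theorem sum_bool (n : Md B) : ∑ k, ((n (k, true) : ℝ) + n (k, false)) = ((∑ μ, n μ : ℕ) : ℝ) := by
  rw [Fintype.sum_prod_type]
  push_cast
  refine Finset.sum_congr rfl fun k _ => ?_
  simp

/-- Adjointness. -/
theorem adj (N : ℕ) (G H : Md B → ℝ) :
    (((N : ℝ) + 2) * (N + 1)) * ∑ n ∈ lev B N, mm n * (G n * Lw H n) =
      ∑ n ∈ lev B (N + 2), mm n * (Rs G n * H n) := by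
  have h1 := sum_up N (fun n k => mm n * (w4 n k * G (dnn n k) * H n)) (by
    intro n k h
    rw [w4_eq] at h
    simp only [h, zero_mul, mul_zero])
  rw [Finset.mul_sum]
  have h2 : ∑ n ∈ lev B (N + 2), mm n * (Rs G n * H n) =
      ∑ n ∈ lev B (N + 2), ∑ k, mm n * (w4 n k * G (dnn n k) * H n) := by
    refine Finset.sum_congr rfl fun n _ => ?_
    unfold Rs
    rw [Finset.sum_mul, Finset.mul_sum]
  rw [h2, ← h1]
  refine Finset.sum_congr rfl fun n hn => ?_
  unfold Lw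
  rw [Finset.mul_sum, Finset.mul_sum, Finset.mul_sum]
  refine Finset.sum_congr rfl fun k _ => ?_
  rw [dnn_up]
  have h3 := mm_up hn k
  rw [w4_eq] at h3
  calc _ = (mm n * (((N : ℝ) + 2) * (N + 1))) * (G n * H (up n k)) := by ring
    _ = _ := by rw [← h3]; ring

/-- Commutation. -/
theorem comm (G : Md B → ℝ) (n : Md B) :
    Lw (Rs G) n = 4 * (((∑ μ, n μ : ℕ) : ℝ) + B) * G n + Rs (Lw G) n := by
  have h1 : ∀ k : Fin B, Rs G (up n k) =
      4 * ((n (k, true) : ℝ) + n (k, false) + 1) * G n + w4 n k * G n +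
        ∑ l ∈ Finset.univ.erase k, w4 n l * G (up (dnn n l) k) := by
    intro k
    unfold Rs
    rw [← Finset.add_sum_erase _ _ (Finset.mem_univ k), w4_up_self, dnn_up]
    congr 1
    · ring
    · refine Finset.sum_congr rfl fun l hl => ?_
      have hl' := Finset.ne_of_mem_erase hl
      rw [w4_up_ne n hl', dnn_up_ne n hl']
  have h2 : ∀ l : Fin B, w4 n l * Lw G (dnn n l) =
      w4 n l * G n + ∑ k ∈ Finset.univ.erase l, w4 n l * G (up (dnn n l) k) := by
    intro l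
    unfold Lw
    rw [← Finset.add_sum_erase _ _ (Finset.mem_univ l), mul_add, Finset.mul_sum]
    congr 1
    by_cases hw : w4 n l = 0
    · rw [hw, zero_mul, zero_mul]
    · rw [up_dnn hw]
  have h3 : ∑ k : Fin B, ∑ l ∈ Finset.univ.erase k, w4 n l * G (up (dnn n l) k) =
      ∑ l : Fin B, ∑ k ∈ Finset.univ.erase l, w4 n l * G (up (dnn n l) k) := by
    refine Finset.sum_comm' fun k l => ?_
    simp only [Finset.mem_univ, Finset.mem_erase, and_true, true_and]
    exact ne_comm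
  have h4 : Lw (Rs G) n = ∑ k : Fin B, Rs G (up n k) := rfl
  have h5 : Rs (Lw G) n = ∑ l : Fin B, w4 n l * Lw G (dnn n l) := rfl
  rw [h4, h5, Finset.sum_congr rfl fun k _ => h1 k, Finset.sum_congr rfl fun l _ => h2 l,
    Finset.sum_add_distrib, Finset.sum_add_distrib, Finset.sum_add_distrib, h3,
    ← Finset.sum_mul, ← Finset.mul_sum, Finset.sum_add_distrib, sum_bool]
  simp
  ring

/-- The test functions. -/
def Gs (F : Md B → ℝ) : ℕ → Md B → ℝ
  | 0 => F
  | s + 1 => Rs (Gs F s)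

theorem Rs_congr {N : ℕ} {G H : Md B → ℝ} (h : ∀ n ∈ lev B N, G n = H n) {n : Md B}
    (hn : n ∈ lev B (N + 2)) : Rs G n = Rs H n := by
  unfold Rs
  refine Finset.sum_congr rfl fun k _ => ?_
  by_cases hw : w4 n k = 0
  · rw [hw, zero_mul, zero_mul]
  · rw [h _ (dnn_mem hn hw)]

theorem Rs_smul (c : ℝ) (G : Md B → ℝ) (n : Md B) : Rs (fun n => c * G n) n = c * Rs G n := by
  unfold Rs
  rw [Finset.mul_sum]
  refine Finset.sum_congr rfl fun k _ => ?_
  ring

theorem Lw_Gs {F : Md B → ℝ} (hF : ∀ n, F n = ∑ k, F (up n k)) (h0 : F 0 = 0) (s : ℕ) :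
    ∀ n ∈ lev B (2 * s + 2), Lw (Gs F (s + 1)) n = 4 * ((s : ℝ) + 1) * (s + 2 + B) * Gs F s n := by
  induction s with
  | zero =>
    intro n hn
    have hn' := mem_lev'.1 hn
    have h1 : Rs (Lw F) n = Rs (fun _ => (0 : ℝ)) n := by
      refine Rs_congr (N := 0) (fun m hm => ?_) hn
      have h2 : m = 0 := by
        funext μ
        have := mem_lev'.1 hm
        have h3 := Finset.sum_eq_zero_iff.1 this μ (Finset.mem_univ μ)
        simpa using h3
      rw [h2]
      change ∑ k, F (up 0 k) = 0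
      rw [← hF, h0]
    have h2 : Rs (fun _ : Md B => (0 : ℝ)) n = 0 := by
      unfold Rs
      simp
    have h3 : Lw (Gs F (0 + 1)) n = Lw (Rs F) n := rfl
    rw [h3, comm, h1, h2, hn']
    change _ = _ * F n
    push_cast
    ring
  | succ s ih =>
    intro n hn
    have hn' := mem_lev'.1 hn
    have h1 : Rs (Lw (Gs F (s + 1))) n =
        Rs (fun n => 4 * ((s : ℝ) + 1) * (s + 2 + B) * Gs F s n) n :=
      Rs_congr (N := 2 * s + 2) ih hn
    have h3 : Lw (Gs F (s + 1 + 1)) n = Lw (Rs (Gs F (s + 1))) n := rfl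
    have h4 : Rs (Gs F s) n = Gs F (s + 1) n := rfl
    rw [h3, comm, h1, Rs_smul, h4, hn']
    push_cast
    ring

/-- `∏ (2t+4)(2t+3)`. -/
def pA : ℕ → ℝ
  | 0 => 1
  | s + 1 => pA s * ((2 * (s : ℝ) + 4) * (2 * s + 3))

/-- `∏ 4 (t+1)(t+2+B)`. -/
def pR (B : ℕ) : ℕ → ℝ
  | 0 => 1
  | s + 1 => pR B s * (4 * ((s : ℝ) + 1) * (s + 2 + B))

theorem pA_pos (s : ℕ) : 0 < pA s := by
  induction s with
  | zero => simp [pA]
  | succ s ih =>
    unfold pA
    positivity

theorem pR_pos (B s : ℕ) : 0 < pR B s := by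
  induction s with
  | zero => simp [pR]
  | succ s ih =>
    unfold pR
    positivity

theorem pair_Gs {F : Md B → ℝ} (hF : ∀ n, F n = ∑ k, F (up n k)) (s : ℕ) :
    ∑ n ∈ lev B (2 * s + 2), mm n * (Gs F s n * F n) = pA s * Tq F 2 := by
  induction s with
  | zero =>
    unfold pA Tq Gs
    rw [one_mul]
    exact Finset.sum_congr rfl fun n _ => by ring
  | succ s ih =>
    have h1 := adj (2 * s + 2) (Gs F s) F
    have h2 : ∀ n, Lw F n = F n := fun n => (hF n).symm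
    simp only [h2] at h1
    rw [ih] at h1
    have h3 : ∀ n, Gs F (s + 1) n = Rs (Gs F s) n := fun n => rfl
    simp only [h3]
    have h4 : 2 * (s + 1) + 2 = 2 * s + 2 + 2 := by ring
    have h5 : pA (s + 1) = pA s * ((2 * (s : ℝ) + 4) * (2 * s + 3)) := rfl
    rw [h4, ← h1, h5]
    push_cast
    ring

theorem norm_Gs {F : Md B → ℝ} (hF : ∀ n, F n = ∑ k, F (up n k)) (h0 : F 0 = 0) (s : ℕ) :
    ∑ n ∈ lev B (2 * s + 2), mm n * Gs F s n ^ 2 = pA s * pR B s * Tq F 2 := by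
  induction s with
  | zero =>
    unfold pA pR Tq Gs
    ring
  | succ s ih =>
    have h1 := adj (2 * s + 2) (Gs F s) (Gs F (s + 1))
    have h2 : ∑ n ∈ lev B (2 * s + 2), mm n * (Gs F s n * Lw (Gs F (s + 1)) n) =
        4 * ((s : ℝ) + 1) * (s + 2 + B) * ∑ n ∈ lev B (2 * s + 2), mm n * Gs F s n ^ 2 := by
      rw [Finset.mul_sum]
      refine Finset.sum_congr rfl fun n hn => ?_
      rw [Lw_Gs hF h0 s n hn]
      ring
    rw [h2, ih] at h1
    have h3 : ∀ n, Gs F (s + 1) n ^ 2 = Rs (Gs F s) n * Gs F (s + 1) n := fun n => by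
      rw [sq]
      rfl
    simp only [h3]
    have h4 : 2 * (s + 1) + 2 = 2 * s + 2 + 2 := by ring
    rw [h4, ← h1]
    have h5 : pA (s + 1) = pA s * ((2 * (s : ℝ) + 4) * (2 * s + 3)) := rfl
    have h6 : pR B (s + 1) = pR B s * (4 * ((s : ℝ) + 1) * (s + 2 + B)) := rfl
    rw [h5, h6]
    push_cast
    ring

theorem Tq_nonneg (F : Md B → ℝ) (N : ℕ) : 0 ≤ Tq F N :=
  Finset.sum_nonneg fun n _ => mul_nonneg (mm_pos n).le (sq_nonneg _)

/-- `pA / pR`. -/
def kap (B s : ℕ) : ℝ := pA s / pR B s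

theorem kap_pos (B s : ℕ) : 0 < kap B s := div_pos (pA_pos s) (pR_pos B s)

theorem kap_zero (B : ℕ) : kap B 0 = 1 := by
  unfold kap pA pR
  norm_num

theorem kap_succ (B s : ℕ) : kap B (s + 1) =
    kap B s * (((2 * (s : ℝ) + 4) * (2 * s + 3)) / (4 * ((s : ℝ) + 1) * (s + 2 + B))) := by
  have h1 := (pR_pos B s).ne'
  unfold kap
  have h5 : pA (s + 1) = pA s * ((2 * (s : ℝ) + 4) * (2 * s + 3)) := rfl
  have h6 : pR B (s + 1) = pR B s * (4 * ((s : ℝ) + 1) * (s + 2 + B)) := rfl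
  rw [h5, h6]
  have h2 : (4 * ((s : ℝ) + 1) * (s + 2 + B)) ≠ 0 := by positivity
  field_simp

/-- Degree two harmonics. -/
theorem harm {F : Md B → ℝ} (hF : ∀ n, F n = ∑ k, F (up n k)) (h0 : F 0 = 0) (s : ℕ) :
    kap B s * Tq F 2 ≤ Tq F (2 * s + 2) := by
  rcases (Tq_nonneg F 2).eq_or_lt with h | h
  · rw [← h, mul_zero]
    exact Tq_nonneg F _
  · have h1 : (∑ n ∈ lev B (2 * s + 2), mm n * (Gs F s n * F n)) ^ 2 ≤
        (∑ n ∈ lev B (2 * s + 2), mm n * Gs F s n ^ 2) * Tq F (2 * s + 2) := by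
      have h2 := Finset.sum_mul_sq_le_sq_mul_sq (lev B (2 * s + 2))
        (fun n => √(mm n) * Gs F s n) (fun n => √(mm n) * F n)
      have h3 : ∀ n : Md B, √(mm n) * √(mm n) = mm n := fun n => Real.mul_self_sqrt (mm_pos n).le
      have e1 : ∀ n : Md B, √(mm n) * Gs F s n * (√(mm n) * F n) = mm n * (Gs F s n * F n) := by
        intro n
        have h4 : √(mm n) * Gs F s n * (√(mm n) * F n) =
            (√(mm n) * √(mm n)) * (Gs F s n * F n) := by ring
        rw [h4, h3]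
      have e2 : ∀ n : Md B, (√(mm n) * Gs F s n) ^ 2 = mm n * Gs F s n ^ 2 := by
        intro n
        rw [mul_pow, sq (√(mm n)), h3]
      have e3 : ∀ n : Md B, (√(mm n) * F n) ^ 2 = mm n * F n ^ 2 := by
        intro n
        rw [mul_pow, sq (√(mm n)), h3]
      simp only [e1, e2, e3] at h2
      exact h2
    rw [pair_Gs hF, norm_Gs hF h0] at h1
    have hA := pA_pos s
    have hR := pR_pos B s
    unfold kap
    rw [div_mul_eq_mul_div, div_le_iff₀ hR]
    have h4 : pA s * Tq F 2 * (pA s * Tq F 2) ≤ pA s * Tq F 2 * (Tq F (2 * s + 2) * pR B s) := by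
      nlinarith
    exact le_of_mul_le_mul_left h4 (mul_pos hA h)

/-! ### Summation -/

/-- The lower bound. -/
def VV0 (B : ℕ) (f0 f1 : ℝ) (M : ℕ) : ℝ :=
  dd M / (2 * M + 1) * (f0 * (2 * M + 2) - f1) * kap B M +
    ∑ q ∈ Finset.range M,
      dd q * ((4 * q + 3) * f0 - (2 * q + 2) * f1) / ((2 * q + 2) * (2 * q + 1)) * kap B q

theorem VV0_lin (B : ℕ) (f0 f1 : ℝ) (M : ℕ) : (6 * (B : ℝ) + 2) * VV0 B f0 f1 M =
    ((6 * B + 2) * f0 - (4 * B + 1) * f1) * VV0 B 1 0 M +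
      f1 * VV0 B (4 * B + 1) (6 * B + 2) M := by
  have h1 : (6 * (B : ℝ) + 2) * ∑ q ∈ Finset.range M,
      dd q * ((4 * q + 3) * f0 - (2 * q + 2) * f1) / ((2 * q + 2) * (2 * q + 1)) * kap B q =
      ((6 * B + 2) * f0 - (4 * B + 1) * f1) * ∑ q ∈ Finset.range M,
        dd q * ((4 * q + 3) * 1 - (2 * q + 2) * 0) / ((2 * q + 2) * (2 * q + 1)) * kap B q +
      f1 * ∑ q ∈ Finset.range M, dd q * ((4 * q + 3) * (4 * B + 1) - (2 * q + 2) * (6 * B + 2)) /
          ((2 * q + 2) * (2 * q + 1)) * kap B q := by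
    rw [Finset.mul_sum, Finset.mul_sum, Finset.mul_sum, ← Finset.sum_add_distrib]
    refine Finset.sum_congr rfl fun q _ => ?_
    ring
  unfold VV0
  linear_combination h1

theorem VV0_star (B M : ℕ) : VV0 B (4 * B + 1) (6 * B + 2) M =
    dd M * kap B M * (2 * B * (2 * M + 1) / (M + 1)) := by
  induction M with
  | zero =>
    unfold VV0
    simp
    ring
  | succ M ih =>
    have h1 : VV0 B (4 * B + 1) (6 * B + 2) (M + 1) = VV0 B (4 * B + 1) (6 * B + 2) M +
        (dd (M + 1) / (2 * (M + 1 : ℕ) + 1) *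
          ((4 * B + 1) * (2 * (M + 1 : ℕ) + 2) - (6 * B + 2)) * kap B (M + 1) -
        dd M / (2 * M + 1) * ((4 * B + 1) * (2 * M + 2) - (6 * B + 2)) * kap B M +
        dd M * ((4 * M + 3) * (4 * B + 1) - (2 * M + 2) * (6 * B + 2)) /
          ((2 * M + 2) * (2 * M + 1)) * kap B M) := by
      unfold VV0
      rw [Finset.sum_range_succ]
      ring
    rw [h1, ih, kap_succ, dd_succ]
    push_cast
    have e1 : (2 * (M : ℝ) + 1) ≠ 0 := by positivity
    have e2 : (2 * (M : ℝ) + 2) ≠ 0 := by positivity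
    have e3 : ((M : ℝ) + 1) ≠ 0 := by positivity
    have e4 : (2 * ((M : ℝ) + 1) + 1) ≠ 0 := by positivity
    have e5 : ((M : ℝ) + 1 + 1) ≠ 0 := by positivity
    have e6 : ((M : ℝ) + 2 + B) ≠ 0 := by positivity
    field_simp
    ring

theorem VV0_one (B M : ℕ) : 0 ≤ VV0 B 1 0 M := by
  unfold VV0
  have h1 := dd_pos M
  have h2 := kap_pos B M
  refine add_nonneg ?_ (Finset.sum_nonneg fun q _ => ?_)
  · have h3 : (1 : ℝ) * (2 * M + 2) - 0 = 2 * M + 2 := by ring
    rw [h3]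
    positivity
  · have h3 := dd_pos q
    have h4 := kap_pos B q
    have h5 : (4 * (q : ℝ) + 3) * 1 - (2 * q + 2) * 0 = 4 * q + 3 := by ring
    rw [h5]
    positivity

theorem VV0_nonneg {B : ℕ} {f0 f1 : ℝ} (hf1 : 0 ≤ f1)
    (hf : (4 * (B : ℝ) + 1) * f1 ≤ (6 * B + 2) * f0) (M : ℕ) : 0 ≤ VV0 B f0 f1 M := by
  have h1 := VV0_lin B f0 f1 M
  rw [VV0_star] at h1
  have h2 := VV0_one B M
  have h3 := dd_pos M
  have h4 := kap_pos B M
  have h5 : 0 ≤ (6 * (B : ℝ) + 2) * VV0 B f0 f1 M := by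
    rw [h1]
    refine add_nonneg (mul_nonneg (by linarith) h2) (mul_nonneg hf1 ?_)
    positivity
  by_contra hneg
  push Not at hneg
  have h6 : (6 * (B : ℝ) + 2) * VV0 B f0 f1 M < 0 :=
    mul_neg_of_pos_of_neg (by positivity) hneg
  linarith

/-- Summation by parts. -/
theorem abel (f0 f1 : ℝ) (t u : ℕ → ℝ) (h0 : u 0 = 0) (hu : ∀ q, u (q + 1) = t q) (M : ℕ) :
    ∑ q ∈ Finset.range (M + 1), (dd q / ((2 * q + 2) * (2 * q + 1)) *
        ((f0 * (2 * q + 2) ^ 2 - f1 * (2 * q + 2)) * t q) - dd q * (f0 * u q)) =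
      dd M / (2 * M + 1) * (f0 * (2 * M + 2) - f1) * t M +
        ∑ q ∈ Finset.range M,
          dd q * ((4 * q + 3) * f0 - (2 * q + 2) * f1) / ((2 * q + 2) * (2 * q + 1)) * t q := by
  induction M with
  | zero =>
    rw [Finset.sum_range_one, Finset.sum_range_zero, h0]
    simp
    ring
  | succ M ih =>
    rw [Finset.sum_range_succ, ih, Finset.sum_range_succ _ M, hu, dd_succ]
    push_cast
    have e1 : (2 * (M : ℝ) + 1) ≠ 0 := by positivity
    have e2 : (2 * (M : ℝ) + 2) ≠ 0 := by positivity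
    have e4 : (2 * ((M : ℝ) + 1) + 1) ≠ 0 := by positivity
    have e5 : (2 * ((M : ℝ) + 1) + 2) ≠ 0 := by positivity
    field_simp
    ring

theorem r0_real {B : ℕ} (hB : 1 ≤ B) (M : ℕ) (F : Md B → ℝ) (hF : ∀ n, F n = ∑ k, F (up n k))
    (h0 : F 0 = 0) {f0 f1 : ℝ} (hf1 : 0 ≤ f1) (hf : (4 * (B : ℝ) + 1) * f1 ≤ (6 * B + 2) * f0) :
    0 ≤ ∑ q ∈ Finset.range (M + 1), (dd q / ((2 * q + 2) * (2 * q + 1)) *
        ((f0 * (2 * q + 2) ^ 2 - f1 * (2 * q + 2)) * Tq F (2 * q + 2)) -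
          dd q * (f0 * Tq F (2 * q))) := by
  have hB' : (1 : ℝ) ≤ B := by exact_mod_cast hB
  have hT0 : Tq F (2 * 0) = 0 := by
    unfold Tq
    refine Finset.sum_eq_zero fun n hn => ?_
    have h2 : n = 0 := by
      funext μ
      have := mem_lev'.1 hn
      have h3 := Finset.sum_eq_zero_iff.1 this μ (Finset.mem_univ μ)
      simpa using h3
    rw [h2, h0]
    ring
  rw [abel f0 f1 (fun q => Tq F (2 * q + 2)) (fun q => Tq F (2 * q)) hT0 (fun q => rfl)]
  have hT := Tq_nonneg F 2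
  have h1 : Tq F 2 * VV0 B f0 f1 M ≤
      dd M / (2 * M + 1) * (f0 * (2 * M + 2) - f1) * Tq F (2 * M + 2) +
        ∑ q ∈ Finset.range M, dd q * ((4 * q + 3) * f0 - (2 * q + 2) * f1) /
          ((2 * q + 2) * (2 * q + 1)) * Tq F (2 * q + 2) := by
    unfold VV0
    rw [mul_add, Finset.mul_sum]
    refine add_le_add ?_ (Finset.sum_le_sum fun q _ => ?_)
    · have hg : 0 ≤ dd M / (2 * M + 1) * (f0 * (2 * M + 2) - f1) := by
        have hd := dd_pos M
        refine mul_nonneg (by positivity) ?_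
        have h2 : 0 ≤ (6 * (B : ℝ) + 2) * (f0 * (2 * M + 2) - f1) := by
          have h3 : (M : ℝ) * ((4 * (B : ℝ) + 1) * f1) ≤ M * ((6 * B + 2) * f0) :=
            mul_le_mul_of_nonneg_left hf (Nat.cast_nonneg M)
          have h4 : 0 ≤ (M : ℝ) * ((4 * (B : ℝ) + 1) * f1) := by positivity
          nlinarith [mul_nonneg (by linarith : (0 : ℝ) ≤ B) hf1]
        by_contra hneg
        push Not at hneg
        have h6 : (6 * (B : ℝ) + 2) * (f0 * (2 * M + 2) - f1) < 0 :=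
          mul_neg_of_pos_of_neg (by positivity) hneg
        linarith
      have h2 := mul_le_mul_of_nonneg_left (harm hF h0 M) hg
      calc _ = dd M / (2 * M + 1) * (f0 * (2 * M + 2) - f1) * (kap B M * Tq F 2) := by ring
        _ ≤ _ := h2
    · rcases Nat.eq_zero_or_pos q with hq | hq
      · subst hq
        rw [kap_zero]
        simp
        linarith
      · have hq' : (1 : ℝ) ≤ q := by exact_mod_cast hq
        have hc : 0 ≤ dd q * ((4 * q + 3) * f0 - (2 * q + 2) * f1) /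
            ((2 * q + 2) * (2 * q + 1)) := by
          have hd := dd_pos q
          refine div_nonneg (mul_nonneg hd.le ?_) (by positivity)
          have h2 : 0 ≤ (6 * (B : ℝ) + 2) * ((4 * q + 3) * f0 - (2 * q + 2) * f1) := by
            have h3 : (4 * (q : ℝ) + 3) * ((4 * (B : ℝ) + 1) * f1) ≤
                (4 * q + 3) * ((6 * B + 2) * f0) :=
              mul_le_mul_of_nonneg_left hf (by positivity)
            have h4 : 0 ≤ (4 * (B : ℝ) * q - 1) * f1 := by
              refine mul_nonneg ?_ hf1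
              nlinarith
            nlinarith
          by_contra hneg
          push Not at hneg
          have h6 : (6 * (B : ℝ) + 2) * ((4 * q + 3) * f0 - (2 * q + 2) * f1) < 0 :=
            mul_neg_of_pos_of_neg (by positivity) hneg
          linarith
        have h2 := mul_le_mul_of_nonneg_left (harm hF h0 q) hc
        calc _ = dd q * ((4 * q + 3) * f0 - (2 * q + 2) * f1) /
            ((2 * q + 2) * (2 * q + 1)) * (kap B q * Tq F 2) := by ring
          _ ≤ _ := h2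
  exact le_trans (mul_nonneg hT (VV0_nonneg hf1 hf M)) h1

theorem r0_form {B : ℕ} (hB : 1 ≤ B) (M : ℕ) (F : Md B → ℂ) (hF : ∀ n, F n = ∑ k, F (up n k))
    (h0 : F 0 = 0) {f0 f1 : ℝ} (hf1 : 0 ≤ f1) (hf : (4 * (B : ℝ) + 1) * f1 ≤ (6 * B + 2) * f0) :
    0 ≤ ∑ q ∈ Finset.range (M + 1), (dd q / ((2 * q + 2) * (2 * q + 1)) *
        (∑ n ∈ lev B (2 * q + 2), mm n * ((f0 * (2 * q + 2) ^ 2 - f1 * (2 * q + 2)) * ‖F n‖ ^ 2)) -
          dd q * ∑ n ∈ lev B (2 * q), mm n * (f0 * ‖F n‖ ^ 2)) := by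
  have h1 := r0_real hB M (fun n => (F n).re) (fun n => by
    conv_lhs => rw [hF n]
    rw [Complex.re_sum]) (by rw [h0]; rfl) hf1 hf
  have h2 := r0_real hB M (fun n => (F n).im) (fun n => by
    conv_lhs => rw [hF n]
    rw [Complex.im_sum]) (by rw [h0]; rfl) hf1 hf
  refine le_trans (add_nonneg h1 h2) (le_of_eq ?_)
  rw [← Finset.sum_add_distrib]
  refine Finset.sum_congr rfl fun q _ => ?_
  have h3 : ∀ (N : ℕ) (c : ℝ), ∑ n ∈ lev B N, mm n * (c * ‖F n‖ ^ 2) =
      c * Tq (fun n => (F n).re) N + c * Tq (fun n => (F n).im) N := by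
    intro N c
    unfold Tq
    rw [Finset.mul_sum, Finset.mul_sum, ← Finset.sum_add_distrib]
    refine Finset.sum_congr rfl fun n _ => ?_
    rw [Complex.sq_norm, Complex.normSq_apply]
    ring
  rw [h3, h3]
  ring

end Pool.Agent.H85.SHP
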