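import Mathlib
import Pool.Agent.H89.ODD.NumD

set_option autoImplicit false

/-!
# Cer: certificates for the charge-free modes at a vertex (link without real line)

Vertex `ℂ^m ⊕ ℝ^r`, `r` even; degrees `j = 2a` outside, `l = 2b` inside `Z`, `N = j + l`.
`G0 r m f0 f1 f2`: there are `T`, `Ga, Gz ≥ 0` with
`(N-1)² T + j Ga(j-2,l) + l Gz(j,l-2) ≤ f1 N(N-1) + (f2-f1) j(j-1) - (f1-f0) l²` and
`(T - f1)(x+y)² + (Ga/(j+r) - (f2-f1)) x² + (Gz/(l+2m) + (f1-f0)) y² ≥ 0` for `N ≥ 2`, and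
`Ga(0,0)/r + Gz(0,0)/(2m) - (f2-f1) + (f1-f0) ≥ 0`.

Corners of the triangle `Δ` (`Del`), `f1 = 1`, `A = f2 - 1`, `B = 1 - f0`:
* `P1` (isotropic, `A = -1/(2m+1)`, `B = -1/(2m-2)`): numbers of `H35/ODD/ONeA`, `Ga = 0`.
* `TL = (-1/(2m+1), 1/(r+2))`: `Ga = B l`, `Gz = |A| j`.
* `C = (1/(r-1), 1/(r+2))`, `r ≥ 4`: `Ga = A (j+2) + B l`, `Gz = 0`, but `Ga(0,0) = 3r/((r-1)(r+2))`.
* `r = 2`: `0 < B ≤ 1/4`, `B ≤ A ≤ 5/9`, `1 - 2A + 4B ≥ 0`: the same with `Ga(0,0) = 2(A-B)`.
* `r = 2`, `m = 2`, `(7/13, -1/26)`: `26 Ga = 14(j+2) + 2l`, `26 Gz = 3(l+2)`, `Ga(0,0) = 27/26`, `Gz(0,0) = 3/13`.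
-/

open Pool.Agent.H89.ODD

noncomputable section

namespace Pool.Agent.H85.SHP

/-- The certificate. -/
def G0 (r m : ℕ) (f0 f1 f2 : ℝ) : Prop :=
  ∃ T Ga Gz : ℕ → ℕ → ℝ, (∀ a b, 0 ≤ Ga a b ∧ 0 ≤ Gz a b) ∧
    (∀ a b : ℕ, 1 ≤ a + b → 0 ≤ T a b ∧
      (2 * ((a : ℝ) + b) - 1) ^ 2 * T a b + 2 * a * Ga (a - 1) b + 2 * b * Gz a (b - 1) ≤
        f1 * (2 * ((a : ℝ) + b)) * (2 * ((a : ℝ) + b) - 1) + (f2 - f1) * (2 * a) * (2 * a - 1) -
          (f1 - f0) * (2 * b) ^ 2 ∧
      ∀ x y : ℝ, 0 ≤ (T a b - f1) * (x + y) ^ 2 + (Ga a b / (2 * a + r) - (f2 - f1)) * x ^ 2 +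
        (Gz a b / (2 * b + 2 * m) + (f1 - f0)) * y ^ 2) ∧
    0 ≤ Ga 0 0 / r + Gz 0 0 / (2 * m) - (f2 - f1) + (f1 - f0)

theorem G0.add {r m : ℕ} {f0 f1 f2 g0 g1 g2 : ℝ} (hf : G0 r m f0 f1 f2) (hg : G0 r m g0 g1 g2) :
    G0 r m (f0 + g0) (f1 + g1) (f2 + g2) := by
  obtain ⟨T, Ga, Gz, h1, h2, h3⟩ := hf
  obtain ⟨S, Ha, Hz, k1, k2, k3⟩ := hg
  refine ⟨fun a b => T a b + S a b, fun a b => Ga a b + Ha a b, fun a b => Gz a b + Hz a b,
    fun a b => ⟨add_nonneg (h1 a b).1 (k1 a b).1, add_nonneg (h1 a b).2 (k1 a b).2⟩,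
    fun a b hab => ⟨add_nonneg (h2 a b hab).1 (k2 a b hab).1, ?_, fun x y => ?_⟩, ?_⟩
  · have e1 := (h2 a b hab).2.1
    have e2 := (k2 a b hab).2.1
    simp only
    nlinarith
  · have e1 := (h2 a b hab).2.2 x y
    have e2 := (k2 a b hab).2.2 x y
    refine le_trans (add_nonneg e1 e2) (le_of_eq ?_)
    simp only
    ring
  · refine le_trans (add_nonneg h3 k3) (le_of_eq ?_)
    simp only
    ring

theorem G0.smul {r m : ℕ} {f0 f1 f2 c : ℝ} (hc : 0 ≤ c) (hf : G0 r m f0 f1 f2) :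
    G0 r m (c * f0) (c * f1) (c * f2) := by
  obtain ⟨T, Ga, Gz, h1, h2, h3⟩ := hf
  refine ⟨fun a b => c * T a b, fun a b => c * Ga a b, fun a b => c * Gz a b,
    fun a b => ⟨mul_nonneg hc (h1 a b).1, mul_nonneg hc (h1 a b).2⟩,
    fun a b hab => ⟨mul_nonneg hc (h2 a b hab).1, ?_, fun x y => ?_⟩, ?_⟩
  · have e1 := mul_le_mul_of_nonneg_left (h2 a b hab).2.1 hc
    simp only
    nlinarith
  · have e1 := mul_nonneg hc ((h2 a b hab).2.2 x y)
    refine le_trans e1 (le_of_eq ?_)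
    simp only
    ring
  · refine le_trans (mul_nonneg hc h3) (le_of_eq ?_)
    simp only
    ring

/-- A two by two form. -/
theorem psd2 {t α β : ℝ} (hab : 0 < α + β) (hd : 0 ≤ t * (α + β) + α * β) (x y : ℝ) :
    0 ≤ t * (x + y) ^ 2 + α * x ^ 2 + β * y ^ 2 := by
  have h1 : (α + β) * (t * (x + y) ^ 2 + α * x ^ 2 + β * y ^ 2) =
      (t * (α + β) + α * β) * (x + y) ^ 2 + (α * x - β * y) ^ 2 := by ring
  have h2 : 0 ≤ (α + β) * (t * (x + y) ^ 2 + α * x ^ 2 + β * y ^ 2) := by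
    rw [h1]
    positivity
  exact nonneg_of_mul_nonneg_right h2 hab

/-- The general linear certificate with a changed value at `(0,0)`. -/
theorem g0_lin {r m : ℕ} (hr : 2 ≤ r) (hm : 1 ≤ m) (Ap Am Bp Bm g h : ℝ) (hAp : 0 ≤ Ap)
    (hAm : 0 ≤ Am) (hBp : 0 ≤ Bp) (hBm : 0 ≤ Bm) (hg : 0 ≤ g) (hh : 0 ≤ h)
    (h0 : 0 ≤ g / r + h / (2 * m) - (Ap - Am) + (Bp - Bm))
    (h10 : ∀ x y : ℝ, 0 ≤ 2 + 2 * (Ap - Am) - 2 * g ∧
      0 ≤ (1 + 2 * (Ap - Am) - 2 * g) * (x + y) ^ 2 +
      (4 * Ap / (2 + r) - (Ap - Am)) * x ^ 2 + ((2 * Am + 2 * Bm) / (2 * m) + (Bp - Bm)) * y ^ 2)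
    (h01 : ∀ x y : ℝ, 0 ≤ 2 - 4 * (Bp - Bm) - 2 * h ∧
      0 ≤ (1 - 4 * (Bp - Bm) - 2 * h) * (x + y) ^ 2 +
      ((2 * Ap + 2 * Bp) / r - (Ap - Am)) * x ^ 2 + (4 * Bm / (2 + 2 * m) + (Bp - Bm)) * y ^ 2)
    (hN : ∀ a b : ℕ, 2 ≤ a + b →
      0 ≤ 2 * ((a : ℝ) + b) * (2 * (a + b) - 1) - Ap * (2 * a) -
        Am * (2 * a) * (2 * (a + b) - 1) - Bp * (2 * b) * (2 * (a + b)) ∧
      0 < (Ap * (2 * a + 2) + Bp * (2 * b)) / (2 * a + r) - (Ap - Am) +
        ((Am * (2 * a) + Bm * (2 * b + 2)) / (2 * b + 2 * m) + (Bp - Bm)) ∧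
      0 ≤ (((2 * ((a : ℝ) + b) - 1) - Ap * (2 * a) - Am * (2 * a) * (2 * (a + b) - 1) -
        Bp * (2 * b) * (2 * (a + b))) / (2 * (a + b) - 1) ^ 2) *
        ((Ap * (2 * a + 2) + Bp * (2 * b)) / (2 * a + r) - (Ap - Am) +
        ((Am * (2 * a) + Bm * (2 * b + 2)) / (2 * b + 2 * m) + (Bp - Bm))) +
        ((Ap * (2 * a + 2) + Bp * (2 * b)) / (2 * a + r) - (Ap - Am)) *
        ((Am * (2 * a) + Bm * (2 * b + 2)) / (2 * b + 2 * m) + (Bp - Bm))) :
    G0 r m (1 - (Bp - Bm)) 1 (1 + (Ap - Am)) := by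
  have hr' : (2 : ℝ) ≤ r := by exact_mod_cast hr
  have hm' : (1 : ℝ) ≤ m := by exact_mod_cast hm
  refine ⟨fun a b => if a + b = 1 then (if a = 1 then 2 + 2 * (Ap - Am) - 2 * g else
      2 - 4 * (Bp - Bm) - 2 * h) else
      (2 * ((a : ℝ) + b) * (2 * (a + b) - 1) - Ap * (2 * a) -
        Am * (2 * a) * (2 * (a + b) - 1) - Bp * (2 * b) * (2 * (a + b))) / (2 * (a + b) - 1) ^ 2,
    fun a b => if a + b = 0 then g else Ap * (2 * a + 2) + Bp * (2 * b),
    fun a b => if a + b = 0 then h else Am * (2 * a) + Bm * (2 * b + 2), ?_, ?_, ?_⟩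
  · intro a b
    constructor
    · simp only
      split_ifs
      · exact hg
      · positivity
    · simp only
      split_ifs
      · exact hh
      · positivity
  · intro a b hab
    simp only
    rcases Nat.lt_or_ge (a + b) 2 with h2 | h2
    · obtain ⟨rfl, rfl⟩ | ⟨rfl, rfl⟩ : (a = 1 ∧ b = 0) ∨ (a = 0 ∧ b = 1) := by omega
      · obtain ⟨e1, _⟩ := h10 0 0
        refine ⟨?_, ?_, fun x y => ?_⟩
        · simpa using e1
        · simp
          ring_nf
          linarith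
        · have e2 := (h10 x y).2
          simp
          refine le_trans e2 (le_of_eq ?_)
          ring
      · obtain ⟨e1, _⟩ := h01 0 0
        refine ⟨?_, ?_, fun x y => ?_⟩
        · simpa using e1
        · simp
          ring_nf
          linarith
        · have e2 := (h01 x y).2
          simp
          refine le_trans e2 (le_of_eq ?_)
          ring
    · obtain ⟨e1, e2, e3⟩ := hN a b h2
      have hs : (2 : ℝ) ≤ (a : ℝ) + b := by exact_mod_cast h2
      have hp : (0 : ℝ) < 2 * ((a : ℝ) + b) - 1 := by linarith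
      have hne : a + b ≠ 1 := by omega
      have hne0 : a + b ≠ 0 := by omega
      rw [if_neg hne, if_neg hne0, if_neg hne0]
      refine ⟨div_nonneg e1 (sq_nonneg _), ?_, fun x y => ?_⟩
      · have ha : 2 * (a : ℝ) * (if a - 1 + b = 0 then g else
            Ap * (2 * ((a - 1 : ℕ) : ℝ) + 2) + Bp * (2 * b)) =
            2 * a * (Ap * (2 * a) + Bp * (2 * b)) := by
          rcases Nat.eq_zero_or_pos a with h | h
          · subst h
            simp
          · have : a - 1 + b ≠ 0 := by omega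
            rw [if_neg this]
            have : ((a - 1 : ℕ) : ℝ) = (a : ℝ) - 1 := by
              push_cast [Nat.cast_sub h]
              ring
            rw [this]
            ring
        have hb : 2 * (b : ℝ) * (if a + (b - 1) = 0 then h else
            Am * (2 * a) + Bm * (2 * ((b - 1 : ℕ) : ℝ) + 2)) =
            2 * b * (Am * (2 * a) + Bm * (2 * b)) := by
          rcases Nat.eq_zero_or_pos b with h | h
          · subst h
            simp
          · have : a + (b - 1) ≠ 0 := by omega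
            rw [if_neg this]
            have : ((b - 1 : ℕ) : ℝ) = (b : ℝ) - 1 := by
              push_cast [Nat.cast_sub h]
              ring
            rw [this]
            ring
        rw [ha, hb, mul_div_cancel₀ _ (pow_ne_zero 2 hp.ne')]
        apply le_of_eq
        ring
      · have hT : (2 * ((a : ℝ) + b) * (2 * (a + b) - 1) - Ap * (2 * a) -
            Am * (2 * a) * (2 * (a + b) - 1) - Bp * (2 * b) * (2 * (a + b))) /
            (2 * (a + b) - 1) ^ 2 - 1 =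
            ((2 * ((a : ℝ) + b) - 1) - Ap * (2 * a) - Am * (2 * a) * (2 * (a + b) - 1) -
              Bp * (2 * b) * (2 * (a + b))) / (2 * (a + b) - 1) ^ 2 := by
          field_simp
          ring
        rw [hT]
        have e4 := psd2 e2 e3 x y
        refine le_trans e4 (le_of_eq ?_)
        ring
  · simp only [add_zero, if_true]
    refine le_trans h0 (le_of_eq ?_)
    ring

theorem g0_C {r m : ℕ} (hr : 4 ≤ r) (hm : 1 ≤ m) :
    G0 r m ((r + 1) / (r + 2)) 1 (r / (r - 1)) := by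
  have hr' : (4 : ℝ) ≤ r := by exact_mod_cast hr
  have hm' : (1 : ℝ) ≤ m := by exact_mod_cast hm
  have r1 : (0 : ℝ) < r - 1 := by linarith
  have r2 : (0 : ℝ) < r + 2 := by linarith
  have r0 : (0 : ℝ) < r := by linarith
  have e0 : 1 - (1 / ((r : ℝ) + 2) - 0) = (r + 1) / (r + 2) := by
    field_simp
    ring
  have e2 : 1 + (1 / ((r : ℝ) - 1) - 0) = r / (r - 1) := by
    field_simp
    ring
  rw [← e0, ← e2]
  refine g0_lin (by omega) hm (1 / ((r : ℝ) - 1)) 0 (1 / ((r : ℝ) + 2)) 0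
    (3 * r / ((r - 1) * (r + 2))) 0 (by positivity) le_rfl (by positivity) le_rfl (by positivity)
    le_rfl ?_ ?_ ?_ ?_
  · apply le_of_eq
    rw [zero_div, add_zero, sub_zero, sub_zero]
    field_simp
    ring
  · intro x y
    have h1 : 2 + 2 * (1 / ((r : ℝ) - 1) - 0) - 2 * (3 * r / ((r - 1) * (r + 2))) =
        2 * r / (r + 2) := by
      field_simp
      ring
    refine ⟨by rw [h1]; positivity, psd2 ?_ ?_ x y⟩
    · have h2 : 4 * (1 / ((r : ℝ) - 1)) / (2 + r) - (1 / (r - 1) - 0) +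
          ((2 * 0 + 2 * 0) / (2 * m) + (1 / (r + 2) - 0)) = 1 / ((r - 1) * (r + 2)) := by
        rw [mul_zero, add_zero, zero_div, zero_add, sub_zero, sub_zero]
        have : (2 : ℝ) + r ≠ 0 := by positivity
        field_simp
        ring
      rw [h2]
      positivity
    · apply le_of_eq
      rw [mul_zero, add_zero, zero_div, zero_add, sub_zero, sub_zero]
      have : (2 : ℝ) + r ≠ 0 := by positivity
      field_simp
      ring
  · intro x y
    have hB : 1 / ((r : ℝ) + 2) ≤ 1 / 6 :=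
      one_div_le_one_div_of_le (by norm_num) (by linarith)
    refine ⟨by linarith, psd2 ?_ ?_ x y⟩
    · have h2 : (2 * (1 / ((r : ℝ) - 1)) + 2 * (1 / (r + 2))) / r - (1 / (r - 1) - 0) +
          (4 * 0 / (2 + 2 * m) + (1 / (r + 2) - 0)) = 1 / (r * (r - 1)) := by
        rw [mul_zero, zero_div, zero_add, sub_zero, sub_zero]
        field_simp
        ring
      rw [h2]
      positivity
    · have h2 : (1 - 4 * (1 / ((r : ℝ) + 2) - 0) - 2 * 0) *
          ((2 * (1 / ((r : ℝ) - 1)) + 2 * (1 / (r + 2))) / r - (1 / (r - 1) - 0) +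
          (4 * 0 / (2 + 2 * m) + (1 / (r + 2) - 0))) +
          ((2 * (1 / ((r : ℝ) - 1)) + 2 * (1 / (r + 2))) / r - (1 / (r - 1) - 0)) *
          (4 * 0 / (2 + 2 * m) + (1 / (r + 2) - 0)) = 2 / (r * (r + 2) ^ 2) := by
        rw [mul_zero, mul_zero, zero_div, zero_add, sub_zero, sub_zero, sub_zero]
        field_simp
        ring
      rw [h2]
      positivity
  · intro a b hab
    have ha : (0 : ℝ) ≤ a := Nat.cast_nonneg a
    have hb : (0 : ℝ) ≤ b := Nat.cast_nonneg b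
    have hs : (2 : ℝ) ≤ (a : ℝ) + b := by exact_mod_cast hab
    have hN : (0 : ℝ) < 2 * ((a : ℝ) + b) - 1 := by linarith
    have hj : (0 : ℝ) < 2 * (a : ℝ) + r := by linarith
    refine ⟨?_, ?_, ?_⟩
    · have hA : 1 / ((r : ℝ) - 1) ≤ 1 / 3 :=
        one_div_le_one_div_of_le (by norm_num) (by linarith)
      have hB : 1 / ((r : ℝ) + 2) ≤ 1 / 6 :=
        one_div_le_one_div_of_le (by norm_num) (by linarith)
      have h1 := mul_le_mul_of_nonneg_right hA (by positivity : (0 : ℝ) ≤ 2 * a)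
      have h2 := mul_le_mul_of_nonneg_right hB
        (by positivity : (0 : ℝ) ≤ 2 * b * (2 * ((a : ℝ) + b)))
      nlinarith [mul_nonneg ha hb]
    · have h2 : (1 / ((r : ℝ) - 1) * (2 * a + 2) + 1 / (r + 2) * (2 * b)) / (2 * a + r) -
          (1 / (r - 1) - 0) + ((0 * (2 * (a : ℝ)) + 0 * (2 * b + 2)) / (2 * b + 2 * m) +
          (1 / (r + 2) - 0)) = (2 * (a + b) * (r - 1) + 4 - r) /
            ((r - 1) * (r + 2) * (2 * a + r)) := by
        rw [zero_mul, zero_mul, add_zero, zero_div, zero_add, sub_zero, sub_zero]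
        field_simp
        ring
      rw [h2]
      apply div_pos _ (by positivity)
      nlinarith
    · have h2 : ((2 * ((a : ℝ) + b) - 1) - 1 / ((r : ℝ) - 1) * (2 * a) -
          0 * (2 * a) * (2 * (a + b) - 1) - 1 / (r + 2) * (2 * b) * (2 * (a + b))) /
          (2 * (a + b) - 1) ^ 2 *
          ((1 / ((r : ℝ) - 1) * (2 * a + 2) + 1 / (r + 2) * (2 * b)) / (2 * a + r) -
          (1 / (r - 1) - 0) + ((0 * (2 * (a : ℝ)) + 0 * (2 * b + 2)) / (2 * b + 2 * m) +
          (1 / (r + 2) - 0))) +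
          ((1 / ((r : ℝ) - 1) * (2 * a + 2) + 1 / (r + 2) * (2 * b)) / (2 * a + r) -
          (1 / (r - 1) - 0)) * ((0 * (2 * (a : ℝ)) + 0 * (2 * b + 2)) / (2 * b + 2 * m) +
          (1 / (r + 2) - 0)) =
          ((r + 2) * ((2 * r - 5) * (2 * (a + b)) - 2 * (r - 1)) + 9 * (2 * b)) /
            ((2 * (a + b) - 1) ^ 2 * (2 * a + r) * (r - 1) ^ 2 * (r + 2) ^ 2) := by
        simp only [zero_mul, add_zero, zero_div, zero_add, sub_zero]
        field_simp
        ring
      rw [h2]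
      apply div_nonneg _ (by positivity)
      have h3 : 0 ≤ (2 * (r : ℝ) - 5) * (2 * (a + b)) - 2 * (r - 1) := by nlinarith
      positivity

theorem g0_R2 {m : ℕ} (hm : 1 ≤ m) {A B : ℝ} (hB0 : 0 < B) (hB : 4 * B ≤ 1) (hBA : B ≤ A)
    (hA : 9 * A ≤ 5) (hs : 0 ≤ 1 - 2 * A + 4 * B) : G0 2 m (1 - B) 1 (1 + A) := by
  have hm' : (1 : ℝ) ≤ m := by exact_mod_cast hm
  have key : G0 2 m (1 - (B - 0)) 1 (1 + (A - 0)) := by
    refine g0_lin le_rfl hm A 0 B 0 (2 * (A - B)) 0 (by linarith) le_rfl hB0.le le_rfl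
      (by linarith) le_rfl ?_ ?_ ?_ ?_
    · apply le_of_eq
      push_cast
      ring
    · intro x y
      refine ⟨by linarith, ?_⟩
      have h1 : (1 + 2 * (A - 0) - 2 * (2 * (A - B))) * (x + y) ^ 2 +
          (4 * A / (2 + (2 : ℕ)) - (A - 0)) * x ^ 2 +
          ((2 * 0 + 2 * 0) / (2 * (m : ℝ)) + (B - 0)) * y ^ 2 =
          (1 - 2 * A + 4 * B) * (x + y) ^ 2 + B * y ^ 2 := by
        push_cast
        ring
      rw [h1]
      positivity
    · intro x y
      refine ⟨by linarith, ?_⟩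
      have h1 : (1 - 4 * (B - 0) - 2 * 0) * (x + y) ^ 2 +
          ((2 * A + 2 * B) / (2 : ℕ) - (A - 0)) * x ^ 2 +
          (4 * 0 / (2 + 2 * (m : ℝ)) + (B - 0)) * y ^ 2 =
          (1 - 4 * B) * (x + y) ^ 2 + B * x ^ 2 + B * y ^ 2 := by
        push_cast
        ring
      rw [h1]
      have h2 : 0 ≤ 1 - 4 * B := by linarith
      positivity
    · intro a b hab
      have ha : (0 : ℝ) ≤ a := Nat.cast_nonneg a
      have hb : (0 : ℝ) ≤ b := Nat.cast_nonneg b
      have hs : (2 : ℝ) ≤ (a : ℝ) + b := by exact_mod_cast hab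
      have hN : (0 : ℝ) < 2 * ((a : ℝ) + b) - 1 := by linarith
      have hj : (0 : ℝ) < 2 * (a : ℝ) + 2 := by linarith
      have hAa := mul_le_mul_of_nonneg_right hA ha
      have hBb := mul_le_mul_of_nonneg_right hB hb
      refine ⟨?_, ?_, ?_⟩
      · nlinarith [mul_nonneg ha hb]
      · have h2 : (A * (2 * (a : ℝ) + 2) + B * (2 * b)) / (2 * a + (2 : ℕ)) - (A - 0) +
            ((0 * (2 * (a : ℝ)) + 0 * (2 * b + 2)) / (2 * b + 2 * m) + (B - 0)) =
            B * (2 * b) / (2 * a + 2) + B := by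
          push_cast
          field_simp
          ring
        rw [h2]
        positivity
      · have h2 : ((2 * ((a : ℝ) + b) - 1) - A * (2 * a) -
            0 * (2 * a) * (2 * (a + b) - 1) - B * (2 * b) * (2 * (a + b))) /
            (2 * (a + b) - 1) ^ 2 *
            ((A * (2 * (a : ℝ) + 2) + B * (2 * b)) / (2 * a + (2 : ℕ)) - (A - 0) +
            ((0 * (2 * (a : ℝ)) + 0 * (2 * b + 2)) / (2 * b + 2 * m) + (B - 0))) +
            ((A * (2 * (a : ℝ) + 2) + B * (2 * b)) / (2 * a + (2 : ℕ)) - (A - 0)) *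
            ((0 * (2 * (a : ℝ)) + 0 * (2 * b + 2)) / (2 * b + 2 * m) + (B - 0)) =
            B * ((2 * (a + b) - 1) * (2 * (a + b) + 2) - A * (2 * a) * (2 * (a + b) + 2) -
              B * (2 * b) * (4 * (2 * (a + b)) - 1)) /
            ((2 * (a + b) - 1) ^ 2 * (2 * a + 2)) := by
          push_cast
          field_simp
          ring
        rw [h2]
        apply div_nonneg _ (by positivity)
        apply mul_nonneg hB0.le
        have h3 := mul_le_mul_of_nonneg_right hAa (by positivity : (0 : ℝ) ≤ 2 * (a + b) + 2)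
        have h4 := mul_le_mul_of_nonneg_right hBb (by linarith : (0 : ℝ) ≤ 4 * (2 * (a + b)) - 1)
        nlinarith [mul_nonneg ha hb, mul_nonneg ha ha]
  simpa using key

theorem g0_X1 {m : ℕ} (hm : 1 ≤ m) :
    G0 2 m (3 / 4) 1 ((6 * m + 8) / (4 * m + 5)) := by
  have hm' : (1 : ℝ) ≤ m := by exact_mod_cast hm
  have h5 : (0 : ℝ) < 4 * m + 5 := by linarith
  have key := g0_R2 hm (A := (2 * m + 3) / (4 * m + 5)) (B := 1 / 4) (by norm_num) (by norm_num)
    (by rw [le_div_iff₀ h5]; linarith)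
    (by rw [← mul_div_assoc, div_le_iff₀ h5]; linarith)
    (by
      have : 1 - 2 * ((2 * (m : ℝ) + 3) / (4 * m + 5)) + 4 * (1 / 4) =
          (4 * m + 4) / (4 * m + 5) := by
        field_simp
        ring
      rw [this]
      positivity)
  have e1 : (1 : ℝ) - 1 / 4 = 3 / 4 := by norm_num
  have e2 : 1 + (2 * (m : ℝ) + 3) / (4 * m + 5) = (6 * m + 8) / (4 * m + 5) := by
    field_simp
    ring
  rwa [e1, e2] at key

/-- The fourth corner for `r = 2`. -/
theorem g0_X2 {m : ℕ} (hm : 2 ≤ m) :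
    G0 2 m ((7 * m ^ 2 + 3 * m - 7) / (2 * (m - 1) * (4 * m + 5))) 1
      ((6 * m + 8) / (4 * m + 5)) := by
  have hm' : (2 : ℝ) ≤ m := by exact_mod_cast hm
  have h5 : (0 : ℝ) < 4 * m + 5 := by linarith
  have h1 : (0 : ℝ) < m - 1 := by linarith
  obtain rfl | hm3 := hm.eq_or_lt
  · have key : G0 2 2 (1 - (1 / 13 - 3 / 26)) 1 (1 + (7 / 13 - 0)) := by
      refine g0_lin le_rfl (by norm_num) (7 / 13) 0 (1 / 13) (3 / 26) (27 / 26) (3 / 13)
        (by norm_num) le_rfl (by norm_num) (by norm_num) (by norm_num) (by norm_num)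
        (by norm_num) ?_ ?_ ?_
      · intro x y
        refine ⟨by norm_num, ?_⟩
        norm_num
        positivity
      · intro x y
        refine ⟨by norm_num, ?_⟩
        norm_num
        positivity
      · intro a b hab
        have ha : (0 : ℝ) ≤ a := Nat.cast_nonneg a
        have hb : (0 : ℝ) ≤ b := Nat.cast_nonneg b
        have hs : (2 : ℝ) ≤ (a : ℝ) + b := by exact_mod_cast hab
        have hN : (0 : ℝ) < 2 * ((a : ℝ) + b) - 1 := by linarith
        have hj : (0 : ℝ) < 2 * (a : ℝ) + 2 := by linarith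
        have hl : (0 : ℝ) < 2 * (b : ℝ) + 4 := by linarith
        have hj' : (0 : ℝ) < 2 * (a : ℝ) + (2 : ℕ) := by positivity
        have hl' : (0 : ℝ) < 2 * (b : ℝ) + 2 * (2 : ℕ) := by positivity
        have eα : (7 / 13 * (2 * (a : ℝ) + 2) + 1 / 13 * (2 * b)) / (2 * a + (2 : ℕ)) -
            (7 / 13 - 0) = 2 * b / (13 * (2 * a + 2)) := by
          push_cast
          field_simp
          ring
        have eβ : (0 * (2 * (a : ℝ)) + 3 / 26 * (2 * b + 2)) / (2 * b + 2 * (2 : ℕ)) +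
            (1 / 13 - 3 / 26) = (2 * b + 1) / (13 * (2 * b + 4)) := by
          push_cast
          have : (2 * (b : ℝ) + 2 * 2) ≠ 0 := by positivity
          field_simp
          ring
        rw [eα, eβ]
        refine ⟨?_, ?_, ?_⟩
        · nlinarith [mul_nonneg ha hb]
        · positivity
        · have h2 : (2 * ((a : ℝ) + b) - 1 - 7 / 13 * (2 * a) - 0 * (2 * a) *
              (2 * (a + b) - 1) - 1 / 13 * (2 * b) * (2 * (a + b))) / (2 * (a + b) - 1) ^ 2 *
              (2 * b / (13 * (2 * a + 2)) + (2 * b + 1) / (13 * (2 * b + 4))) +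
              2 * b / (13 * (2 * a + 2)) * ((2 * b + 1) / (13 * (2 * b + 4))) =
              (2 * b * (2 * (a + b)) * (6 * (2 * (a + b)) - 17) + (2 * b) ^ 2 + 2 * b +
                (6 * (2 * a) + 13 * (2 * b) - 13) * (2 * a + 6 * (2 * b) + 2)) /
              (169 * (2 * a + 2) * (2 * b + 4) * (2 * (a + b) - 1) ^ 2) := by
            field_simp
            ring
          rw [h2]
          apply div_nonneg _ (by positivity)
          have h3 : 0 ≤ 6 * (2 * ((a : ℝ) + b)) - 17 := by linarith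
          have h4 : 0 ≤ 6 * (2 * (a : ℝ)) + 13 * (2 * b) - 13 := by linarith
          positivity
    have e1 : (1 : ℝ) - (1 / 13 - 3 / 26) =
        (7 * ((2 : ℕ) : ℝ) ^ 2 + 3 * (2 : ℕ) - 7) / (2 * ((2 : ℕ) - 1) * (4 * (2 : ℕ) + 5)) := by
      norm_num
    have e2 : (1 : ℝ) + (7 / 13 - 0) = (6 * (2 : ℕ) + 8) / (4 * (2 : ℕ) + 5) := by norm_num
    rwa [e1, e2] at key
  · have hm3' : (3 : ℝ) ≤ m := by exact_mod_cast hm3
    have h3 : (0 : ℝ) < 2 * (m - 1) * (4 * m + 5) := by positivity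
    have key := g0_R2 (by omega : 1 ≤ m) (A := (2 * m + 3) / (4 * m + 5))
      (B := ((m : ℝ) ^ 2 - m - 3) / (2 * (m - 1) * (4 * m + 5)))
      (by
        apply div_pos _ h3
        nlinarith)
      (by
        rw [← mul_div_assoc, div_le_iff₀ h3]
        nlinarith)
      (by
        rw [div_le_div_iff₀ h3 h5]
        have : ((m : ℝ) ^ 2 - m - 3) * (4 * m + 5) ≤
            ((2 * m + 3) * (2 * (m - 1))) * (4 * m + 5) :=
          mul_le_mul_of_nonneg_right (by nlinarith) h5.le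
        linarith)
      (by rw [← mul_div_assoc, div_le_iff₀ h5]; linarith)
      (by
        have : 1 - 2 * ((2 * (m : ℝ) + 3) / (4 * m + 5)) +
            4 * (((m : ℝ) ^ 2 - m - 3) / (2 * (m - 1) * (4 * m + 5))) =
            (2 * m - 5) * (m + 1) / ((m - 1) * (4 * m + 5)) := by
          field_simp
          ring
        rw [this]
        apply div_nonneg _ (by positivity)
        exact mul_nonneg (by linarith) (by linarith))
    have e1 : 1 - ((m : ℝ) ^ 2 - m - 3) / (2 * (m - 1) * (4 * m + 5)) =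
        (7 * m ^ 2 + 3 * m - 7) / (2 * (m - 1) * (4 * m + 5)) := by
      field_simp
      ring
    have e2 : 1 + (2 * (m : ℝ) + 3) / (4 * m + 5) = (6 * m + 8) / (4 * m + 5) := by
      field_simp
      ring
    rwa [e1, e2] at key

theorem g0_TL {r m : ℕ} (hr : 2 ≤ r) (hm : 1 ≤ m) :
    G0 r m ((r + 1) / (r + 2)) 1 (2 * m / (2 * m + 1)) := by
  have hr' : (2 : ℝ) ≤ r := by exact_mod_cast hr
  have hm' : (1 : ℝ) ≤ m := by exact_mod_cast hm
  have r2 : (0 : ℝ) < r + 2 := by linarith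
  have r0 : (0 : ℝ) < r := by linarith
  have m1 : (0 : ℝ) < 2 * m + 1 := by linarith
  have m0 : (0 : ℝ) < 2 * m := by linarith
  have e0 : 1 - (1 / ((r : ℝ) + 2) - 0) = (r + 1) / (r + 2) := by
    field_simp
    ring
  have e2 : 1 + (0 - 1 / (2 * (m : ℝ) + 1)) = 2 * m / (2 * m + 1) := by
    field_simp
    ring
  have hB : 1 / ((r : ℝ) + 2) ≤ 1 / 4 :=
    one_div_le_one_div_of_le (by norm_num) (by linarith)
  have hA : 1 / (2 * (m : ℝ) + 1) ≤ 1 / 3 :=
    one_div_le_one_div_of_le (by norm_num) (by linarith)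
  have hB0 : 0 < 1 / ((r : ℝ) + 2) := by positivity
  have hA0 : 0 < 1 / (2 * (m : ℝ) + 1) := by positivity
  rw [← e0, ← e2]
  refine g0_lin hr hm 0 (1 / (2 * (m : ℝ) + 1)) (1 / ((r : ℝ) + 2)) 0 0 0 le_rfl (by positivity)
    (by positivity) le_rfl le_rfl le_rfl ?_ ?_ ?_ ?_
  · simp only [zero_div, zero_sub, neg_neg, sub_zero, add_zero, zero_add]
    positivity
  · intro x y
    refine ⟨by linarith, ?_⟩
    have h1 : 0 ≤ 1 + 2 * (0 - 1 / (2 * (m : ℝ) + 1)) - 2 * 0 := by linarith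
    have h2 : 0 ≤ 4 * 0 / (2 + (r : ℝ)) - (0 - 1 / (2 * m + 1)) := by
      simp only [mul_zero, zero_div, zero_sub, neg_neg]
      positivity
    have h3 : 0 ≤ (2 * (1 / (2 * (m : ℝ) + 1)) + 2 * 0) / (2 * m) + (1 / (r + 2) - 0) := by
      simp only [mul_zero, add_zero, sub_zero]
      positivity
    have := mul_nonneg h1 (sq_nonneg (x + y))
    have := mul_nonneg h2 (sq_nonneg x)
    have := mul_nonneg h3 (sq_nonneg y)
    linarith
  · intro x y
    refine ⟨by linarith, ?_⟩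
    have h1 : 0 ≤ 1 - 4 * (1 / ((r : ℝ) + 2) - 0) - 2 * 0 := by linarith
    have h2 : 0 ≤ (2 * 0 + 2 * (1 / ((r : ℝ) + 2))) / r - (0 - 1 / (2 * m + 1)) := by
      simp only [mul_zero, zero_add, zero_sub, neg_neg, sub_neg_eq_add]
      positivity
    have h3 : 0 ≤ 4 * 0 / (2 + 2 * (m : ℝ)) + (1 / (r + 2) - 0) := by
      simp only [mul_zero, zero_div, zero_add, sub_zero]
      positivity
    have := mul_nonneg h1 (sq_nonneg (x + y))
    have := mul_nonneg h2 (sq_nonneg x)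
    have := mul_nonneg h3 (sq_nonneg y)
    linarith
  · intro a b hab
    have ha : (0 : ℝ) ≤ a := Nat.cast_nonneg a
    have hb : (0 : ℝ) ≤ b := Nat.cast_nonneg b
    have hs : (2 : ℝ) ≤ (a : ℝ) + b := by exact_mod_cast hab
    have hN : (0 : ℝ) < 2 * ((a : ℝ) + b) - 1 := by linarith
    have hj : (0 : ℝ) < 2 * (a : ℝ) + r := by linarith
    have hl : (0 : ℝ) < 2 * (b : ℝ) + 2 * m := by linarith
    have eα : (0 * (2 * (a : ℝ) + 2) + 1 / (r + 2) * (2 * b)) / (2 * a + r) -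
        (0 - 1 / (2 * m + 1)) = (2 * b * (2 * m + 1) + (2 * a + r) * (r + 2)) /
          ((2 * a + r) * ((r + 2) * (2 * m + 1))) := by
      simp only [zero_mul, zero_add, zero_sub, sub_neg_eq_add]
      field_simp
    have eβ : (1 / (2 * (m : ℝ) + 1) * (2 * a) + 0 * (2 * b + 2)) / (2 * b + 2 * m) +
        (1 / (r + 2) - 0) = (2 * a * (r + 2) + (2 * b + 2 * m) * (2 * m + 1)) /
          ((2 * b + 2 * m) * ((r + 2) * (2 * m + 1))) := by
      simp only [zero_mul, add_zero, sub_zero]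
      field_simp
    rw [eα, eβ]
    refine ⟨?_, by positivity, ?_⟩
    · have h1 := mul_le_mul_of_nonneg_right hA
        (mul_nonneg (by positivity : (0 : ℝ) ≤ 2 * a) hN.le)
      have h2 := mul_le_mul_of_nonneg_right hB
        (by positivity : (0 : ℝ) ≤ 2 * b * (2 * ((a : ℝ) + b)))
      nlinarith [mul_nonneg ha hb]
    · have h2 : ((2 * ((a : ℝ) + b) - 1) - 0 * (2 * a) -
          1 / (2 * m + 1) * (2 * a) * (2 * (a + b) - 1) - 1 / (r + 2) * (2 * b) * (2 * (a + b))) /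
          (2 * (a + b) - 1) ^ 2 *
          ((2 * b * (2 * m + 1) + (2 * a + r) * (r + 2)) /
            ((2 * a + r) * ((r + 2) * (2 * m + 1))) +
            (2 * a * (r + 2) + (2 * b + 2 * m) * (2 * m + 1)) /
            ((2 * b + 2 * m) * ((r + 2) * (2 * m + 1)))) +
          (2 * b * (2 * m + 1) + (2 * a + r) * (r + 2)) /
            ((2 * a + r) * ((r + 2) * (2 * m + 1))) *
          ((2 * a * (r + 2) + (2 * b + 2 * m) * (2 * m + 1)) /
            ((2 * b + 2 * m) * ((r + 2) * (2 * m + 1)))) =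
          (((2 * ((a : ℝ) + b) - 1) * (2 * m + 1) * (r + 2) - 2 * a * (2 * (a + b) - 1) * (r + 2) -
            2 * b * (2 * (a + b)) * (2 * m + 1)) *
            ((2 * b * (2 * m + 1) + (2 * a + r) * (r + 2)) * (2 * b + 2 * m) +
              (2 * a * (r + 2) + (2 * b + 2 * m) * (2 * m + 1)) * (2 * a + r)) +
            (2 * (a + b) - 1) ^ 2 * (2 * b * (2 * m + 1) + (2 * a + r) * (r + 2)) *
              (2 * a * (r + 2) + (2 * b + 2 * m) * (2 * m + 1))) /
          ((2 * (a + b) - 1) ^ 2 * (2 * a + r) * (2 * b + 2 * m) * (r + 2) ^ 2 *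
            (2 * m + 1) ^ 2) := by
        simp only [zero_mul, sub_zero]
        field_simp
      rw [h2]
      apply div_nonneg _ (by positivity)
      obtain ⟨R, hR⟩ : ∃ R : ℝ, (r : ℝ) = R + 2 := ⟨r - 2, by ring⟩
      obtain ⟨q, hq⟩ : ∃ q : ℝ, (m : ℝ) = q + 1 := ⟨m - 1, by ring⟩
      have hR0 : 0 ≤ R := by linarith
      have hq0 : 0 ≤ q := by linarith
      rw [hR, hq]
      rcases Nat.eq_zero_or_pos a with h0 | h0
      · obtain ⟨t, ht⟩ : ∃ t : ℝ, (b : ℝ) = t + 1 := ⟨b - 1, by ring⟩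
        have ha0 : (a : ℝ) = 0 := by rw [h0]; simp
        have ht0 : 0 ≤ t := by linarith
        rw [ha0, ht]
        ring_nf
        positivity
      · obtain ⟨s, hs'⟩ : ∃ s : ℝ, (a : ℝ) = s + 1 := ⟨a - 1, by ring⟩
        have ha1 : (1 : ℝ) ≤ a := by exact_mod_cast h0
        have hs0 : 0 ≤ s := by linarith
        rw [hs']
        generalize (b : ℝ) = t at hb
        ring_nf
        positivity

/-- Certificates with `Ga = 0`. -/
theorem g0_iso {r m : ℕ} (hm : 1 ≤ m) (a0 b0 : ℝ) (P Q : ℕ → ℕ → ℝ) (ha0 : 0 ≤ a0)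
    (ha1 : a0 ≤ 1) (hP : ∀ j l, 1 ≤ j + l → 0 < P j l)
    (hQ : ∀ j l, 1 ≤ j + l → b0 - a0 * (1 - 1 / P j l) ≤ Q j l) (hQ0 : b0 - a0 ≤ Q 0 0)
    (hQn : ∀ j l, 0 ≤ Q j l)
    (hc : ∀ j l : ℕ, 1 ≤ j + l → 0 ≤ 2 * ((j : ℝ) + l) - 1 + a0 * (2 * (j : ℝ) - 4 * (j : ℝ) ^ 2) +
      b0 * (4 * (l : ℝ) ^ 2) + a0 * (1 - P j l) * (2 * ((j : ℝ) + l) - 1) ^ 2 -
      Q j (l - 1) * (2 * (l : ℝ)) * (2 * (l : ℝ) + 2 * (m : ℝ) - 2)) :
    G0 r m (1 + b0) 1 (1 - a0) := by
  have hm' : (1 : ℝ) ≤ m := by exact_mod_cast hm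
  refine ⟨fun a b => 1 - a0 * (1 - P a b), fun _ _ => 0, fun a b => Q a b * (2 * b + 2 * m),
    fun a b => ⟨le_rfl, mul_nonneg (hQn a b) (by positivity)⟩, fun a b hab => ⟨?_, ?_, ?_⟩, ?_⟩
  · have h1 := mul_nonneg ha0 (hP a b hab).le
    simp only
    linarith
  · have h1 := hc a b hab
    have h2 : 2 * (b : ℝ) * (Q a (b - 1) * (2 * ((b - 1 : ℕ) : ℝ) + 2 * m)) =
        Q a (b - 1) * (2 * (b : ℝ)) * (2 * (b : ℝ) + 2 * (m : ℝ) - 2) := by
      rcases Nat.eq_zero_or_pos b with h | h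
      · subst h
        simp
      · have : ((b - 1 : ℕ) : ℝ) = (b : ℝ) - 1 := by
          push_cast [Nat.cast_sub h]
          ring
        rw [this]
        ring
    simp only
    rw [h2]
    nlinarith
  · intro x y
    have hPp := hP a b hab
    have h4 : x ^ 2 - ((1 - P a b) * (x + y) ^ 2 + (1 - 1 / P a b) * y ^ 2) =
        (P a b * (x + y) - y) ^ 2 / P a b := by
      field_simp
      ring
    have h5 : 0 ≤ (P a b * (x + y) - y) ^ 2 / P a b := div_nonneg (sq_nonneg _) hPp.le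
    have h6 := mul_nonneg ha0 h5
    rw [← h4] at h6
    have h7 := mul_le_mul_of_nonneg_right (hQ a b hab) (sq_nonneg y)
    have hl : (2 * (b : ℝ) + 2 * m) ≠ 0 := by positivity
    simp only
    rw [zero_div, mul_div_assoc, div_self hl, mul_one]
    nlinarith
  · have hl : (2 * (m : ℝ)) ≠ 0 := by positivity
    simp only [Nat.cast_zero, mul_zero, zero_add, zero_div]
    rw [mul_div_assoc, div_self hl]
    linarith

theorem g0_P1' {r m : ℕ} : G0 r (m + 2) (1 + 1 / (2 * (m : ℝ) + 2)) 1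
    (1 - 1 / (2 * (m : ℝ) + 5)) := by
  have hm0 : (0 : ℝ) ≤ m := by positivity
  have hba : 1 / (2 * (m : ℝ) + 5) ≤ 1 / (2 * (m : ℝ) + 2) := by
    apply one_div_le_one_div_of_le (by positivity)
    linarith
  apply g0_iso (by omega) (1 / (2 * (m : ℝ) + 5)) (1 / (2 * (m : ℝ) + 2))
    (fun j l => if j = 0 then (2 * (l : ℝ) + 2 * m + 2) / (2 * (l : ℝ) - 1) else
      if j ≤ m + 2 then 1 else (2 * (l : ℝ) + 2 * m + 4) / (2 * ((j : ℝ) + l) - 1))
    (fun j l => if j = 0 then (if l = 0 then 1 / (2 * (m : ℝ) + 2) - 1 / (2 * (m : ℝ) + 5) else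
        1 / (2 * (m : ℝ) + 2) - 1 / (2 * (m : ℝ) + 5) +
          1 / (2 * (m : ℝ) + 5) * (2 * (l : ℝ) - 1) / (2 * (l : ℝ) + 2 * m + 2)) else
      if j ≤ m + 2 then 1 / (2 * (m : ℝ) + 2) else
        1 / (2 * (m : ℝ) + 2) - 1 / (2 * (m : ℝ) + 5) +
          1 / (2 * (m : ℝ) + 5) * (2 * ((j : ℝ) + l) - 1) / (2 * (l : ℝ) + 2 * m + 4))
  · positivity
  · rw [div_le_one (by positivity)]
    linarith
  · intro j l hjl
    have h3 : (0 : ℝ) ≤ l := by positivity
    have h3' : (0 : ℝ) ≤ j := by positivity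
    have h4 : (1 : ℝ) ≤ (j : ℝ) + l := by exact_mod_cast hjl
    split_ifs with hj hj
    · subst hj
      have h5 : (1 : ℝ) ≤ l := by
        push_cast at h4
        linarith
      apply div_pos (by positivity)
      linarith
    · exact one_pos
    · apply div_pos (by positivity)
      linarith
  · intro j l hjl
    have h3 : (0 : ℝ) ≤ l := by positivity
    have h4 : (1 : ℝ) ≤ (j : ℝ) + l := by exact_mod_cast hjl
    by_cases hj : j = 0
    · subst hj
      have h5 : (1 : ℝ) ≤ l := by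
        push_cast at h4
        linarith
      have hl : l ≠ 0 := by
        rintro rfl
        norm_num at h5
      simp only [if_true, if_neg hl]
      have h6 : (0 : ℝ) < 2 * (l : ℝ) - 1 := by linarith
      have h7 : (0 : ℝ) < 2 * (l : ℝ) + 2 * m + 2 := by positivity
      apply le_of_eq
      field_simp
      ring
    · simp only [if_neg hj]
      by_cases hj2 : j ≤ m + 2
      · simp only [if_pos hj2]
        norm_num
      · simp only [if_neg hj2]
        have h6 : (0 : ℝ) < 2 * ((j : ℝ) + l) - 1 := by linarith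
        have h7 : (0 : ℝ) < 2 * (l : ℝ) + 2 * m + 4 := by positivity
        apply le_of_eq
        field_simp
        ring
  · simp
  · intro j l
    have h3 : (0 : ℝ) ≤ l := by positivity
    split_ifs with hj hl hj2
    · linarith
    · have h5 : (1 : ℝ) ≤ l := by exact_mod_cast Nat.one_le_iff_ne_zero.2 hl
      have h6 : 0 ≤ 1 / (2 * (m : ℝ) + 5) * (2 * (l : ℝ) - 1) / (2 * (l : ℝ) + 2 * m + 2) := by
        apply div_nonneg _ (by positivity)
        apply mul_nonneg (by positivity)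
        linarith
      linarith
    · positivity
    · have h5 : (1 : ℝ) ≤ j := by exact_mod_cast Nat.one_le_iff_ne_zero.2 hj
      have h6 : 0 ≤ 1 / (2 * (m : ℝ) + 5) * (2 * ((j : ℝ) + l) - 1) /
          (2 * (l : ℝ) + 2 * m + 4) := by
        apply div_nonneg _ (by positivity)
        apply mul_nonneg (by positivity)
        linarith
      linarith
  · intro j l hjl
    have h3 : (0 : ℝ) ≤ l := by positivity
    have h4 : (1 : ℝ) ≤ (j : ℝ) + l := by exact_mod_cast hjl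
    push_cast
    by_cases hj : j = 0
    · subst hj
      simp only [if_true]
      have h5 : (1 : ℝ) ≤ l := by
        push_cast at h4
        linarith
      have hl : 1 ≤ l := by exact_mod_cast h5
      rcases Nat.lt_or_ge 1 l with hl2 | hl2
      · have hl1 : ((l - 1 : ℕ) : ℝ) = (l : ℝ) - 1 := by
          push_cast [Nat.cast_sub hl]
          ring
        have h6 : (2 : ℝ) ≤ l := by exact_mod_cast hl2
        rw [if_neg (by omega), hl1]
        have h7 : (0 : ℝ) < 2 * (l : ℝ) - 1 := by linarith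
        have h8 : (0 : ℝ) < 2 * ((l : ℝ) - 1) + 2 * m + 2 := by linarith
        have h9 : (0 : ℝ) < (l : ℝ) + m := by linarith
        have e : 2 * (((0 : ℕ) : ℝ) + l) - 1 +
            1 / (2 * (m : ℝ) + 5) * (2 * ((0 : ℕ) : ℝ) - 4 * ((0 : ℕ) : ℝ) ^ 2) +
            1 / (2 * (m : ℝ) + 2) * (4 * (l : ℝ) ^ 2) +
            1 / (2 * (m : ℝ) + 5) * (1 - (2 * (l : ℝ) + 2 * m + 2) / (2 * (l : ℝ) - 1)) *
              (2 * (((0 : ℕ) : ℝ) + l) - 1) ^ 2 -
            (1 / (2 * (m : ℝ) + 2) - 1 / (2 * (m : ℝ) + 5) +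
              1 / (2 * (m : ℝ) + 5) * (2 * ((l : ℝ) - 1) - 1) /
                (2 * ((l : ℝ) - 1) + 2 * m + 2)) * (2 * (l : ℝ)) *
              (2 * (l : ℝ) + 2 * ((m : ℝ) + 2) - 2) =
            ((2 * (m : ℝ) + 3) * (1 + 2 * (l : ℝ) / ((l : ℝ) + m)) - (2 * (m : ℝ) + 5)) /
              (2 * (m : ℝ) + 5) := by
          push_cast
          have h8' : 2 * ((l : ℝ) - 1) + 2 * m + 2 = 2 * ((l : ℝ) + m) := by ring
          rw [h8']
          field_simp
          ring
        have h10 : 0 ≤ ((2 * (m : ℝ) + 3) * (1 + 2 * (l : ℝ) / ((l : ℝ) + m)) -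
            (2 * (m : ℝ) + 5)) / (2 * (m : ℝ) + 5) := by
          apply div_nonneg _ (by positivity)
          have h11 : (2 * (m : ℝ) + 3) * (1 + 2 * (l : ℝ) / ((l : ℝ) + m)) -
            (2 * (m : ℝ) + 5) = ((2 * (m : ℝ) + 3) * (2 * (l : ℝ)) - 2 * ((l : ℝ) + m)) /
              ((l : ℝ) + m) := by
            field_simp
            ring
          rw [h11]
          apply div_nonneg _ h9.le
          nlinarith [mul_nonneg hm0 h3]
        have := e ▸ h10
        convert this using 1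
      · have hl1 : l = 1 := by omega
        subst hl1
        apply le_of_eq
        norm_num
        field_simp
        ring
    · have hj1 : (1 : ℝ) ≤ j := by exact_mod_cast Nat.one_le_iff_ne_zero.2 hj
      simp only [if_neg hj]
      by_cases hj2 : j ≤ m + 2
      · simp only [if_pos hj2]
        have hj3 : (j : ℝ) ≤ m + 2 := by exact_mod_cast hj2
        have e : 2 * ((j : ℝ) + l) - 1 +
            1 / (2 * (m : ℝ) + 5) * (2 * (j : ℝ) - 4 * (j : ℝ) ^ 2) +
            1 / (2 * (m : ℝ) + 2) * (4 * (l : ℝ) ^ 2) +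
            1 / (2 * (m : ℝ) + 5) * (1 - 1) * (2 * ((j : ℝ) + l) - 1) ^ 2 -
            1 / (2 * (m : ℝ) + 2) * (2 * (l : ℝ)) * (2 * (l : ℝ) + 2 * ((m : ℝ) + 2) - 2) =
            (2 * (j : ℝ) - 1) * (2 * ((m : ℝ) + 2 - j) + 1) / (2 * (m : ℝ) + 5) := by
          field_simp
          ring
        rw [e]
        apply div_nonneg _ (by positivity)
        apply mul_nonneg <;> linarith
      · simp only [if_neg hj2]
        have h6 : (0 : ℝ) < 2 * ((j : ℝ) + l) - 1 := by linarith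
        rcases Nat.eq_zero_or_pos l with hl | hl
        · subst hl
          apply le_of_eq
          push_cast at h6 ⊢
          have h6' : 2 * (j : ℝ) - 1 ≠ 0 := by linarith
          field_simp
          ring
        · have hl1 : ((l - 1 : ℕ) : ℝ) = (l : ℝ) - 1 := by
            push_cast [Nat.cast_sub hl]
            ring
          have h5 : (1 : ℝ) ≤ l := by exact_mod_cast hl
          rw [hl1]
          have h7 : 2 * ((l : ℝ) - 1) + 2 * m + 4 = 2 * ((l : ℝ) + m + 1) := by ring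
          have h8 : (0 : ℝ) < (l : ℝ) + m + 1 := by positivity
          rw [h7]
          apply le_of_eq
          field_simp
          ring

theorem g0_P1 {r m : ℕ} (hm : 2 ≤ m) :
    G0 r m ((2 * m - 1) / (2 * m - 2)) 1 (2 * m / (2 * m + 1)) := by
  obtain ⟨p, rfl⟩ := Nat.exists_eq_add_of_le' hm
  have h1 := g0_P1' (r := r) (m := p)
  have e0 : (2 * ((p + 2 : ℕ) : ℝ) - 1) / (2 * ((p + 2 : ℕ) : ℝ) - 2) =
      1 + 1 / (2 * (p : ℝ) + 2) := by
    push_cast
    have : 2 * ((p : ℝ) + 2) - 2 = 2 * p + 2 := by ring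
    rw [this]
    field_simp
    ring
  have e2 : 2 * ((p + 2 : ℕ) : ℝ) / (2 * ((p + 2 : ℕ) : ℝ) + 1) =
      1 - 1 / (2 * (p : ℝ) + 5) := by
    push_cast
    have : 2 * ((p : ℝ) + 2) + 1 = 2 * p + 5 := by ring
    rw [this]
    field_simp
    ring
  rw [e0, e2]
  exact h1

theorem g0_zero (r m : ℕ) : G0 r m 0 0 0 := by
  refine ⟨fun _ _ => 0, fun _ _ => 0, fun _ _ => 0, fun _ _ => ⟨le_rfl, le_rfl⟩,
    fun a b _ => ⟨le_rfl, ?_, fun x y => ?_⟩, ?_⟩ <;> simp

/-- The triangle `Δ` (for `r = 2` with the bound of `f2 - f1`). -/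
theorem g0_of_del {r m : ℕ} {f0 f1 f2 : ℝ} (h : Del r m f0 f1 f2) (hm : 1 ≤ m)
    (hr : 4 ≤ r ∨ (r = 2 ∧ (4 * (m : ℝ) + 5) * (f2 - f1) ≤ (2 * m + 3) * f1)) :
    ∃ f0' : ℝ, (2 ≤ m → f0' = f0) ∧ G0 r m f0' f1 f2 := by
  obtain ⟨a1, a2, a3, a4⟩ := h
  have hm' : (1 : ℝ) ≤ m := by exact_mod_cast hm
  have m1 : (0 : ℝ) < 2 * m + 1 := by linarith
  rcases hr with hr | ⟨rfl, hA⟩
  · have hr' : (4 : ℝ) ≤ r := by exact_mod_cast hr
    have r1 : (0 : ℝ) < r - 1 := by linarith
    have r2 : (0 : ℝ) < r + 2 := by linarith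
    have r3 : (0 : ℝ) < 2 * m + r := by linarith
    obtain h1 | h2 : m = 1 ∨ 2 ≤ m := by omega
    · subst h1
      refine ⟨(r + 1) / (r + 2) * f1, fun h => by omega, ?_⟩
      set γ : ℝ := (r - 1) * (3 * f2 - 2 * f1) / (r + 2) with hγ
      have hγ0 : 0 ≤ γ := div_nonneg (mul_nonneg r1.le (by push_cast at a2; linarith)) r2.le
      have hτ : 0 ≤ f1 - γ := by
        rw [hγ, sub_nonneg, div_le_iff₀ r2]
        push_cast at a4
        nlinarith
      have key := ((g0_C hr hm).smul hγ0).add ((g0_TL (r := r) (by omega) hm).smul hτ)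
      have e0 : γ * (((r : ℝ) + 1) / (r + 2)) + (f1 - γ) * ((r + 1) / (r + 2)) =
          (r + 1) / (r + 2) * f1 := by ring
      have e1 : γ * 1 + (f1 - γ) * 1 = f1 := by ring
      have e2 : γ * ((r : ℝ) / (r - 1)) + (f1 - γ) * (2 * ((1 : ℕ) : ℝ) / (2 * ((1 : ℕ) : ℝ) + 1)) =
          f2 := by
        rw [hγ]
        push_cast
        field_simp
        ring
      rwa [e0, e1, e2] at key
    · have h2' : (2 : ℝ) ≤ m := by exact_mod_cast h2
      have m2 : (0 : ℝ) < 2 * m - 2 := by linarith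
      refine ⟨f0, fun _ => rfl, ?_⟩
      set γ : ℝ := (r - 1) * ((2 * m + 1) * f2 - 2 * m * f1) / (2 * m + r) with hγ
      set α : ℝ := (2 * m - 2) * ((r + 2) * f0 - (r + 1) * f1) / (2 * m + r) with hα
      have hγ0 : 0 ≤ γ := div_nonneg (mul_nonneg r1.le (by linarith)) r3.le
      have hα0 : 0 ≤ α := div_nonneg (mul_nonneg m2.le (by linarith)) r3.le
      have hτ : 0 ≤ f1 - α - γ := by
        have : f1 - α - γ = (f1 * (2 * m + r) - (2 * m - 2) * ((r + 2) * f0 - (r + 1) * f1) -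
            (r - 1) * ((2 * m + 1) * f2 - 2 * m * f1)) / (2 * m + r) := by
          rw [hα, hγ]
          field_simp
        rw [this]
        apply div_nonneg _ r3.le
        nlinarith
      have key := (((g0_P1 (r := r) h2).smul hα0).add ((g0_C hr hm).smul hγ0)).add
        ((g0_TL (r := r) (by omega) hm).smul hτ)
      have e0 : α * ((2 * (m : ℝ) - 1) / (2 * m - 2)) + γ * (((r : ℝ) + 1) / (r + 2)) +
          (f1 - α - γ) * ((r + 1) / (r + 2)) = f0 := by
        have m2' : (m : ℝ) - 1 ≠ 0 := by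
          intro h
          linarith
        have e9 : 2 * (m : ℝ) - 2 = 2 * (m - 1) := by ring
        rw [hα, e9]
        field_simp
        ring
      have e1 : α * 1 + γ * 1 + (f1 - α - γ) * 1 = f1 := by ring
      have e2 : α * (2 * (m : ℝ) / (2 * m + 1)) + γ * ((r : ℝ) / (r - 1)) +
          (f1 - α - γ) * (2 * m / (2 * m + 1)) = f2 := by
        rw [hγ]
        field_simp
        ring
      rwa [e0, e1, e2] at key
  · push_cast at a3 a4
    have h5 : (0 : ℝ) < 4 * m + 5 := by linarith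
    set s : ℝ := (4 * m + 5) * ((2 * m + 1) * f2 - 2 * m * f1) / (4 * (m + 1) * (m + 2)) with hs
    have hs0 : 0 ≤ s := div_nonneg (mul_nonneg h5.le (by linarith)) (by positivity)
    have hs1 : 0 ≤ f1 - s := by
      rw [hs, sub_nonneg, div_le_iff₀ (by positivity)]
      nlinarith
    have eA : s * ((6 * (m : ℝ) + 8) / (4 * m + 5)) + (f1 - s) * (2 * m / (2 * m + 1)) = f2 := by
      rw [hs]
      field_simp
      ring
    obtain h1 | h2 : m = 1 ∨ 2 ≤ m := by omega
    · refine ⟨3 / 4 * f1, fun h => by omega, ?_⟩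
      have key := ((g0_X1 hm).smul hs0).add ((g0_TL (r := 2) le_rfl hm).smul hs1)
      have e0 : s * (3 / 4) + (f1 - s) * ((((2 : ℕ) : ℝ) + 1) / (((2 : ℕ) : ℝ) + 2)) =
          3 / 4 * f1 := by
        push_cast
        ring
      have e1 : s * 1 + (f1 - s) * 1 = f1 := by ring
      rwa [e0, e1, eA] at key
    · have h2' : (2 : ℝ) ≤ m := by exact_mod_cast h2
      have m2 : (0 : ℝ) < m - 1 := by linarith
      refine ⟨f0, fun _ => rfl, ?_⟩
      -- capacity
      set cap : ℝ := (f1 - s) * ((m + 1) / (4 * (m - 1))) +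
        s * ((2 * m + 1) * (m + 1) / (4 * (m - 1) * (4 * m + 5))) with hcap
      have hE0 : 0 ≤ f0 - 3 / 4 * f1 := by linarith
      have hE1 : f0 - 3 / 4 * f1 ≤ cap := by
        have e3 : cap = ((m + 1) * (2 * m + 2) * f1 - (m + 1) * ((2 * m + 1) * f2 - 2 * m * f1)) /
            (8 * (m - 1) * (m + 1)) := by
          rw [hcap, hs]
          field_simp
          ring
        rw [e3, le_div_iff₀ (by positivity)]
        nlinarith [mul_nonneg (by linarith : (0 : ℝ) ≤ m + 1) (by linarith :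
          (0 : ℝ) ≤ (4 * m * 2 + 2 * m - 2 - 2) * f1 -
            ((2 - 1) * (2 * m + 1) * f2 + (2 + 2) * (2 * m - 2) * f0))]
      have hcap0 : 0 ≤ cap := by linarith
      rcases hcap0.eq_or_lt with hc | hc
      · -- everything is zero
        have hE : f0 = 3 / 4 * f1 := by linarith
        have key := ((g0_X1 hm).smul hs0).add ((g0_TL (r := 2) le_rfl hm).smul hs1)
        have e0 : s * (3 / 4) + (f1 - s) * ((((2 : ℕ) : ℝ) + 1) / (((2 : ℕ) : ℝ) + 2)) = f0 := by
          rw [hE]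
          push_cast
          ring
        have e1 : s * 1 + (f1 - s) * 1 = f1 := by ring
        rwa [e0, e1, eA] at key
      · set θ : ℝ := (f0 - 3 / 4 * f1) / cap with hθ
        have hθ0 : 0 ≤ θ := div_nonneg hE0 hc.le
        have hθ1 : 0 ≤ 1 - θ := by
          rw [hθ, sub_nonneg, div_le_one hc]
          exact hE1
        have key := ((((g0_P1 (r := 2) h2).smul hs1).add ((g0_X2 h2).smul hs0)).smul hθ0).add
          ((((g0_TL (r := 2) le_rfl hm).smul hs1).add ((g0_X1 hm).smul hs0)).smul hθ1)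
        have e0 : θ * ((f1 - s) * ((2 * (m : ℝ) - 1) / (2 * m - 2)) +
            s * ((7 * m ^ 2 + 3 * m - 7) / (2 * (m - 1) * (4 * m + 5)))) +
            (1 - θ) * ((f1 - s) * ((((2 : ℕ) : ℝ) + 1) / (((2 : ℕ) : ℝ) + 2)) + s * (3 / 4)) =
            f0 := by
          have e3 : (f1 - s) * ((2 * (m : ℝ) - 1) / (2 * m - 2)) +
              s * ((7 * m ^ 2 + 3 * m - 7) / (2 * (m - 1) * (4 * m + 5))) =
              3 / 4 * f1 + cap := by
            have hm2 : 2 * (m : ℝ) - 2 = 2 * (m - 1) := by ring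
            rw [hcap, hm2]
            field_simp
            ring
          have e4 : θ * cap = f0 - 3 / 4 * f1 := by
            rw [hθ]
            field_simp
          rw [e3]
          push_cast
          linear_combination e4
        have e1 : θ * ((f1 - s) * 1 + s * 1) + (1 - θ) * ((f1 - s) * 1 + s * 1) = f1 := by ring
        have e2 : θ * ((f1 - s) * (2 * (m : ℝ) / (2 * m + 1)) +
            s * ((6 * m + 8) / (4 * m + 5))) +
            (1 - θ) * ((f1 - s) * (2 * m / (2 * m + 1)) + s * ((6 * m + 8) / (4 * m + 5))) =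
            f2 := by linear_combination eA
        rwa [e0, e1, e2] at key

end Pool.Agent.H85.SHP
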